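import Pool.Agent.Lib.MP_3ef1ab_nt.E.Defs

/-! MP_3ef1ab_nt, part M (random models). Definitions. -/

set_option autoImplicit false

namespace Pool.Agent.Lib.MP_3ef1ab_nt

open Finset Filter Topology MeasureTheory
open scoped Classical

/-- `L` is regularly varying of index `β ≥ 0` in `log x` and `1 ≤ L x ≤ C log x`. -/
structure RVL (L : ℝ → ℝ) (β : ℝ) : Prop where
  β_nonneg : 0 ≤ β
  L_low : ∀ᶠ x : ℝ in atTop, 1 ≤ L x
  L_up : ∃ C1 : ℝ, ∀ᶠ x : ℝ in atTop, L x ≤ C1 * Real.log x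
  rv : ∀ ε : ℝ, 0 < ε → ∀ᶠ x : ℝ in atTop, ∀ y : ℝ, x ≤ y → y ≤ x ^ 2 →
    |L y / L x - (Real.log y / Real.log x) ^ β| ≤ ε

/-- The Hawkins random sieve: `A k` is the event that `k` is a (random) prime. There are no primes
below `2`, and given the first `k` steps the number `k + 1` is prime with probability
`∏ (1 - 1/j)`, the product over the primes `j ≤ k`. -/
structure Hawkins {Ω : Type*} {m0 : MeasurableSpace Ω} (P : Measure Ω) (ℱ : Filtration ℕ m0)
    (A : ℕ → Set Ω) : Prop where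
  meas : ∀ k, MeasurableSet[ℱ k] (A k)
  zero : A 0 = ∅
  one : A 1 = ∅
  step : ∀ k : ℕ, 1 ≤ k → P[(A (k + 1)).indicator (fun _ => (1 : ℝ)) | ℱ k] =ᵐ[P]
    fun ω => ∏ j ∈ (Icc 2 k).filter (fun j => ω ∈ A j), (1 - 1 / (j : ℝ))

end Pool.Agent.Lib.MP_3ef1ab_nt
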