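import Mathlib

/-! MP_3ef1ab_nt, part M (random models), module Exp: exponential supermartingale of an adapted
sequence of zeros and ones, Borel-Cantelli. -/

set_option autoImplicit false

namespace Pool.Agent.Lib.MP_3ef1ab_nt

open Finset Filter Topology MeasureTheory
open scoped ENNReal

variable {Ω : Type*} {m0 : MeasurableSpace Ω} {P : Measure Ω} {ℱ : Filtration ℕ m0}
  {X q : ℕ → Ω → ℝ}

/-- `X` is an adapted sequence of zeros and ones with conditional densities `q`. -/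
structure Mod (P : Measure Ω) (ℱ : Filtration ℕ m0) (X q : ℕ → Ω → ℝ) : Prop where
  adX : ∀ k, StronglyMeasurable[ℱ k] (X k)
  x01 : ∀ k ω, X k ω = 0 ∨ X k ω = 1
  mq : ∀ k, StronglyMeasurable[ℱ k] (q (k + 1))
  q01 : ∀ k ω, 0 ≤ q k ω ∧ q k ω ≤ 1
  ce : ∀ k, P[X (k + 1) | ℱ k] =ᵐ[P] q (k + 1)

/-- the exponent -/
noncomputable def Sx (X q : ℕ → Ω → ℝ) (θ : ℝ) (a n : ℕ) (ω : Ω) : ℝ :=
  ∑ i ∈ range n, (θ * X (a + i + 1) ω - (Real.exp θ - 1) * q (a + i + 1) ω)

theorem Sx_succ (X q : ℕ → Ω → ℝ) (θ : ℝ) (a n : ℕ) (ω : Ω) : Sx X q θ a (n + 1) ω =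
    Sx X q θ a n ω + (θ * X (a + n + 1) ω - (Real.exp θ - 1) * q (a + n + 1) ω) := by
  unfold Sx
  rw [sum_range_succ]

theorem Mod.sx_meas (h : Mod P ℱ X q) (θ : ℝ) (a n : ℕ) :
    StronglyMeasurable[ℱ (a + n)] (Sx X q θ a n) := by
  induction n with
  | zero =>
    have : Sx X q θ a 0 = fun _ => 0 := by
      funext ω
      simp [Sx]
    rw [this]
    exact stronglyMeasurable_const
  | succ n ih =>
    have e : Sx X q θ a (n + 1) = fun ω => Sx X q θ a n ω +
        (θ * X (a + n + 1) ω - (Real.exp θ - 1) * q (a + n + 1) ω) := by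
      funext ω
      exact Sx_succ X q θ a n ω
    rw [e]
    have h1 : StronglyMeasurable[ℱ (a + (n + 1))] (Sx X q θ a n) :=
      ih.mono (ℱ.mono (by omega))
    have h2 : StronglyMeasurable[ℱ (a + (n + 1))] (X (a + n + 1)) := h.adX _
    have h3 : StronglyMeasurable[ℱ (a + (n + 1))] (q (a + n + 1)) :=
      (h.mq (a + n)).mono (ℱ.mono (by omega))
    exact h1.add ((h2.const_mul θ).sub (h3.const_mul _))

theorem Mod.sx_bd (h : Mod P ℱ X q) (θ : ℝ) (a n : ℕ) (ω : Ω) :
    |Sx X q θ a n ω| ≤ n * (|θ| + |Real.exp θ - 1|) := by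
  unfold Sx
  calc |∑ i ∈ range n, (θ * X (a + i + 1) ω - (Real.exp θ - 1) * q (a + i + 1) ω)|
      ≤ ∑ i ∈ range n, |θ * X (a + i + 1) ω - (Real.exp θ - 1) * q (a + i + 1) ω| :=
        abs_sum_le_sum_abs _ _
    _ ≤ ∑ _i ∈ range n, (|θ| + |Real.exp θ - 1|) := by
        apply sum_le_sum
        intro i _
        have h1 := h.x01 (a + i + 1) ω
        obtain ⟨h2, h3⟩ := h.q01 (a + i + 1) ω
        calc |θ * X (a + i + 1) ω - (Real.exp θ - 1) * q (a + i + 1) ω|
            ≤ |θ * X (a + i + 1) ω| + |(Real.exp θ - 1) * q (a + i + 1) ω| := abs_sub _ _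
          _ ≤ _ := by
              rw [abs_mul, abs_mul]
              apply add_le_add
              · rcases h1 with h1 | h1 <;> rw [h1] <;> simp
              · rw [abs_of_nonneg h2]
                exact mul_le_of_le_one_right (abs_nonneg _) h3
    _ = _ := by rw [sum_const, card_range, nsmul_eq_mul]

section
variable [IsProbabilityMeasure P]

theorem bdd_int {f : Ω → ℝ} (hf : StronglyMeasurable[m0] f) (C : ℝ) (hC : ∀ ω, |f ω| ≤ C) :
    Integrable f P :=
  Integrable.of_bound hf.aestronglyMeasurable C (Eventually.of_forall hC)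

theorem Mod.exp_int (h : Mod P ℱ X q) (θ : ℝ) (a n : ℕ) :
    Integrable (fun ω => Real.exp (Sx X q θ a n ω)) P := by
  apply bdd_int (Real.continuous_exp.comp_stronglyMeasurable
    ((h.sx_meas θ a n).mono (ℱ.le _))) (Real.exp (n * (|θ| + |Real.exp θ - 1|)))
  intro ω
  rw [abs_of_pos (Real.exp_pos _)]
  apply Real.exp_le_exp.2
  exact (le_abs_self _).trans (h.sx_bd θ a n ω)

theorem Mod.step (h : Mod P ℱ X q) (θ : ℝ) (a n : ℕ) :
    ∫ ω, Real.exp (Sx X q θ a (n + 1) ω) ∂P ≤ ∫ ω, Real.exp (Sx X q θ a n ω) ∂P := by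
  set μ := Real.exp θ - 1 with hμ
  set G : Ω → ℝ := fun ω => Real.exp (Sx X q θ a n ω - μ * q (a + n + 1) ω) with hG
  have hGm : StronglyMeasurable[ℱ (a + n)] G :=
    Real.continuous_exp.comp_stronglyMeasurable
      ((h.sx_meas θ a n).sub ((h.mq (a + n)).const_mul μ))
  have hGm0 : StronglyMeasurable[m0] G := hGm.mono (ℱ.le _)
  have hG0 : ∀ ω, 0 < G ω := fun ω => Real.exp_pos _
  have hGb : ∀ ω, |G ω| ≤ Real.exp (n * (|θ| + |Real.exp θ - 1|) + |μ|) := by
    intro ω
    rw [abs_of_pos (hG0 ω)]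
    apply Real.exp_le_exp.2
    have h1 := h.sx_bd θ a n ω
    obtain ⟨h2, h3⟩ := h.q01 (a + n + 1) ω
    have h4 : |μ * q (a + n + 1) ω| ≤ |μ| := by
      rw [abs_mul, abs_of_nonneg h2]
      exact mul_le_of_le_one_right (abs_nonneg _) h3
    rw [abs_le] at h1 h4
    linarith
  have hXm : StronglyMeasurable[m0] (X (a + n + 1)) := (h.adX _).mono (ℱ.le _)
  have hqm : StronglyMeasurable[m0] (q (a + n + 1)) := (h.mq _).mono (ℱ.le _)
  have hXb : ∀ ω, |X (a + n + 1) ω| ≤ 1 := by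
    intro ω
    rcases h.x01 (a + n + 1) ω with h1 | h1 <;> rw [h1] <;> simp
  have hqb : ∀ ω, |q (a + n + 1) ω| ≤ 1 := by
    intro ω
    obtain ⟨h2, h3⟩ := h.q01 (a + n + 1) ω
    rw [abs_of_nonneg h2]
    exact h3
  have iX : Integrable (X (a + n + 1)) P := bdd_int hXm 1 hXb
  have iG : Integrable G P := bdd_int hGm0 _ hGb
  have iGX : Integrable (G * X (a + n + 1)) P := by
    apply bdd_int (hGm0.mul hXm) (Real.exp (n * (|θ| + |Real.exp θ - 1|) + |μ|))
    intro ω
    rw [Pi.mul_apply, abs_mul]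
    calc _ ≤ Real.exp (n * (|θ| + |Real.exp θ - 1|) + |μ|) * 1 :=
          mul_le_mul (hGb ω) (hXb ω) (abs_nonneg _) (Real.exp_pos _).le
      _ = _ := mul_one _
  have iGq : Integrable (G * q (a + n + 1)) P := by
    apply bdd_int (hGm0.mul hqm) (Real.exp (n * (|θ| + |Real.exp θ - 1|) + |μ|))
    intro ω
    rw [Pi.mul_apply, abs_mul]
    calc _ ≤ Real.exp (n * (|θ| + |Real.exp θ - 1|) + |μ|) * 1 :=
          mul_le_mul (hGb ω) (hqb ω) (abs_nonneg _) (Real.exp_pos _).le
      _ = _ := mul_one _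
  have key : ∫ ω, (G * X (a + n + 1)) ω ∂P = ∫ ω, (G * q (a + n + 1)) ω ∂P := by
    rw [← integral_condExp (ℱ.le (a + n))]
    apply integral_congr_ae
    have h1 := condExp_mul_of_stronglyMeasurable_left hGm iGX iX
    have h2 := h.ce (a + n)
    filter_upwards [h1, h2] with ω h1 h2
    rw [h1, Pi.mul_apply, Pi.mul_apply, h2]
  have e1 : ∀ ω, Real.exp (Sx X q θ a (n + 1) ω) = G ω + μ * (G * X (a + n + 1)) ω := by
    intro ω
    rw [Sx_succ, hG, Pi.mul_apply]
    have : Sx X q θ a n ω + (θ * X (a + n + 1) ω - (Real.exp θ - 1) * q (a + n + 1) ω) =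
        (Sx X q θ a n ω - μ * q (a + n + 1) ω) + θ * X (a + n + 1) ω := by
      rw [← hμ]; ring
    rw [this, Real.exp_add]
    rcases h.x01 (a + n + 1) ω with h1 | h1 <;> rw [h1]
    · simp
    · rw [mul_one, mul_one, hμ]; ring
  calc ∫ ω, Real.exp (Sx X q θ a (n + 1) ω) ∂P
      = ∫ ω, (G ω + μ * (G * X (a + n + 1)) ω) ∂P := by
        apply integral_congr_ae
        exact Eventually.of_forall e1
    _ = ∫ ω, G ω ∂P + μ * ∫ ω, (G * X (a + n + 1)) ω ∂P := by
        rw [integral_add iG (iGX.const_mul μ), integral_const_mul]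
    _ = ∫ ω, G ω ∂P + μ * ∫ ω, (G * q (a + n + 1)) ω ∂P := by rw [key]
    _ = ∫ ω, (G ω + μ * (G * q (a + n + 1)) ω) ∂P := by
        rw [integral_add iG (iGq.const_mul μ), integral_const_mul]
    _ ≤ ∫ ω, Real.exp (Sx X q θ a n ω) ∂P := by
        apply integral_mono (iG.add (iGq.const_mul μ)) (h.exp_int θ a n)
        intro ω
        have h1 : G ω + μ * (G * q (a + n + 1)) ω = G ω * (1 + μ * q (a + n + 1) ω) := by
          rw [Pi.mul_apply]; ring
        have h2 : Real.exp (Sx X q θ a n ω) = G ω * Real.exp (μ * q (a + n + 1) ω) := by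
          rw [hG, ← Real.exp_add]
          congr 1
          ring
        change G ω + μ * (G * q (a + n + 1)) ω ≤ Real.exp (Sx X q θ a n ω)
        rw [h1, h2]
        apply mul_le_mul_of_nonneg_left _ (hG0 ω).le
        have := Real.add_one_le_exp (μ * q (a + n + 1) ω)
        linarith

theorem Mod.int_le (h : Mod P ℱ X q) (θ : ℝ) (a n : ℕ) :
    ∫ ω, Real.exp (Sx X q θ a n ω) ∂P ≤ 1 := by
  induction n with
  | zero => simp [Sx]
  | succ n ih => exact (h.step θ a n).trans ih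

theorem Mod.markov (h : Mod P ℱ X q) (θ : ℝ) (a n : ℕ) (t : ℝ) :
    P.real {ω | t ≤ Sx X q θ a n ω} ≤ Real.exp (-t) := by
  have h1 := mul_meas_ge_le_integral_of_nonneg (μ := P)
    (f := fun ω => Real.exp (Sx X q θ a n ω))
    (Eventually.of_forall fun ω => (Real.exp_pos _).le) (h.exp_int θ a n) (Real.exp t)
  have h2 := h1.trans (h.int_le θ a n)
  have h3 : {ω | Real.exp t ≤ Real.exp (Sx X q θ a n ω)} = {ω | t ≤ Sx X q θ a n ω} := by
    ext ω
    simp
  rw [h3] at h2
  rw [Real.exp_neg, ← one_div, le_div_iff₀ (Real.exp_pos t), mul_comm]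
  exact h2

/-- Borel-Cantelli over all intervals. -/
theorem Mod.ae (h : Mod P ℱ X q) (θ : ℝ) : ∀ᵐ ω ∂P, ∀ᶠ b : ℕ in atTop, ∀ a : ℕ, a < b →
    Sx X q θ a (b - a) ω < 4 * Real.log b := by
  have hs : (∑' b : ℕ, P (⋃ a ∈ range b, {ω | 4 * Real.log b ≤ Sx X q θ a (b - a) ω})) ≠ ∞ := by
    have h1 : ∀ b : ℕ, P (⋃ a ∈ range b, {ω | 4 * Real.log b ≤ Sx X q θ a (b - a) ω}) ≤
        ENNReal.ofReal (1 / (b : ℝ) ^ 2) := by
      intro b
      rcases Nat.eq_zero_or_pos b with hb | hb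
      · subst hb
        simp
      · have hb0 : (0 : ℝ) < b := by exact_mod_cast hb
        have hb1 : (1 : ℝ) ≤ b := by exact_mod_cast hb
        calc _ ≤ ∑ a ∈ range b, P {ω | 4 * Real.log b ≤ Sx X q θ a (b - a) ω} :=
              measure_biUnion_finset_le _ _
          _ ≤ ∑ _a ∈ range b, ENNReal.ofReal (1 / (b : ℝ) ^ 4) := by
              apply sum_le_sum
              intro a _
              have h2 := h.markov θ a (b - a) (4 * Real.log b)
              have h3 : Real.exp (-(4 * Real.log b)) = 1 / (b : ℝ) ^ 4 := by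
                rw [Real.exp_neg, mul_comm, Real.exp_mul, Real.exp_log hb0, one_div]
                norm_cast
              rw [h3] at h2
              rw [← ofReal_measureReal]
              exact ENNReal.ofReal_le_ofReal h2
          _ = ENNReal.ofReal (b * (1 / (b : ℝ) ^ 4)) := by
              rw [sum_const, card_range, nsmul_eq_mul, ENNReal.ofReal_mul hb0.le,
                ENNReal.ofReal_natCast]
          _ ≤ _ := by
              apply ENNReal.ofReal_le_ofReal
              have e : (b : ℝ) * (1 / (b : ℝ) ^ 4) = 1 / (b : ℝ) ^ 3 := by field_simp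
              rw [e]
              apply one_div_le_one_div_of_le (by positivity)
              exact pow_le_pow_right₀ hb1 (by norm_num)
    have h2 : (∑' b : ℕ, ENNReal.ofReal (1 / (b : ℝ) ^ 2)) ≠ ∞ :=
      (Real.summable_one_div_nat_pow.2 (by norm_num)).tsum_ofReal_ne_top
    exact ne_top_of_le_ne_top h2 (ENNReal.tsum_le_tsum h1)
  filter_upwards [ae_eventually_notMem hs] with ω hω
  filter_upwards [hω] with b hb a hab
  by_contra hcon
  apply hb
  simp only [Set.mem_iUnion, mem_range]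
  exact ⟨a, hab, not_lt.1 hcon⟩

end

end Pool.Agent.Lib.MP_3ef1ab_nt
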