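import Pool.Agent.Lib.MP_3ef1ab_nt.D.Law
import Pool.Agent.Lib.MP_3ef1ab_nt.M.Exp
import Pool.Agent.Lib.MP_3ef1ab_nt.M.Defs

/-! MP_3ef1ab_nt, part M (random models), module Det: from the exponential bounds to regularity,
for a fixed sequence of zeros and ones. -/

set_option autoImplicit false

namespace Pool.Agent.Lib.MP_3ef1ab_nt

open Finset Filter Topology
open scoped Classical

/-- the exponent for fixed sequences -/
noncomputable def Sd (x q : ℕ → ℝ) (θ : ℝ) (a n : ℕ) : ℝ :=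
  ∑ i ∈ range n, (θ * x (a + i + 1) - (Real.exp θ - 1) * q (a + i + 1))

variable {L : ℝ → ℝ} {β : ℝ}

/-- `L k / L t → 1` for `t ≤ k ≤ 2 t` -/
theorem RVL.short (h : RVL L β) (δ : ℝ) (hδ : 0 < δ) : ∀ᶠ t : ℝ in atTop, ∀ k : ℝ,
    t ≤ k → k ≤ 2 * t → |L k / L t - 1| ≤ δ := by
  have h1 := h.rv (δ / 2) (by positivity)
  have h2 : Tendsto (fun t : ℝ => (1 + Real.log 2 / Real.log t) ^ β) atTop (𝓝 1) := by
    have e1 : Tendsto (fun t : ℝ => 1 + Real.log 2 / Real.log t) atTop (𝓝 (1 + 0)) :=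
      tendsto_const_nhds.add (tendsto_const_nhds.div_atTop Real.tendsto_log_atTop)
    rw [add_zero] at e1
    have e2 := e1.rpow_const (p := β) (Or.inl one_ne_zero)
    rwa [Real.one_rpow] at e2
  have h3 := h2.eventually_lt_const (show (1 : ℝ) < 1 + δ / 2 by linarith)
  filter_upwards [h1, h3, eventually_ge_atTop (2 : ℝ)] with t k1 k3 k4 k hk1 hk2
  have hlt : 0 < Real.log t := Real.log_pos (by linarith)
  have e1 := k1 k hk1 (by nlinarith)
  have e2 : (1 : ℝ) ≤ (Real.log k / Real.log t) ^ β := by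
    apply Real.one_le_rpow _ h.β_nonneg
    rw [le_div_iff₀ hlt, one_mul]
    exact Real.log_le_log (by linarith) hk1
  have e3 : (Real.log k / Real.log t) ^ β ≤ (1 + Real.log 2 / Real.log t) ^ β := by
    have hk0 : 0 ≤ Real.log k := Real.log_nonneg (by linarith)
    apply Real.rpow_le_rpow (by positivity) _ h.β_nonneg
    rw [div_le_iff₀ hlt]
    have : Real.log k ≤ Real.log (2 * t) := Real.log_le_log (by linarith) hk2
    rw [Real.log_mul (by norm_num) (by linarith)] at this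
    have e : (1 + Real.log 2 / Real.log t) * Real.log t = Real.log t + Real.log 2 := by
      field_simp
    rw [e]
    linarith
  rw [abs_le] at e1 ⊢
  constructor <;> linarith

/-- the sum of `q` over an interval -/
theorem sum_q (h : RVL L β) {q : ℕ → ℝ} {c : ℝ} (hc : 0 < c)
    (hq : Tendsto (fun k : ℕ => L k * q k) atTop (𝓝 c)) (δ : ℝ) (hδ : 0 < δ) (hδ1 : δ ≤ 1 / 8) :
    ∀ᶠ t : ℝ in atTop, ∀ y : ℝ, √t ≤ y → y ≤ t → ⌊t⌋₊ < ⌊t + y⌋₊ ∧
      |∑ i ∈ range (⌊t + y⌋₊ - ⌊t⌋₊), q (⌊t⌋₊ + i + 1) - c * y / L t| ≤ 6 * δ * (c * y / L t) := by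
  have h1 := h.short δ hδ
  have h2 : ∀ᶠ k : ℕ in atTop, |L k * q k - c| ≤ c * δ := by
    have := Metric.tendsto_nhds.1 hq (c * δ) (by positivity)
    filter_upwards [this] with k hk
    rw [Real.dist_eq] at hk
    exact hk.le
  obtain ⟨k0, hk0⟩ := eventually_atTop.1 h2
  filter_upwards [h1, h.L_low, eventually_ge_atTop (k0 : ℝ), eventually_ge_atTop (4 : ℝ),
    eventually_ge_atTop ((1 / δ) ^ 2)] with t t1 t2 t3 t4 t5 y hy1 hy2
  have hs : 1 / δ ≤ √t := Real.le_sqrt_of_sq_le t5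
  have hy0 : 1 / δ ≤ y := hs.trans hy1
  have hy8 : (8 : ℝ) ≤ y := by
    have : (8 : ℝ) ≤ 1 / δ := by
      rw [le_div_iff₀ hδ]
      linarith
    linarith
  have hyδ : 1 ≤ δ * y := by
    have := mul_le_mul_of_nonneg_left hy0 hδ.le
    rwa [mul_one_div_cancel hδ.ne'] at this
  have ht0 : 0 ≤ t := by linarith
  have f1 : (⌊t⌋₊ : ℝ) ≤ t := Nat.floor_le ht0
  have f2 : t < ⌊t⌋₊ + 1 := Nat.lt_floor_add_one t
  have f3 : (⌊t + y⌋₊ : ℝ) ≤ t + y := Nat.floor_le (by linarith)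
  have f4 : t + y < ⌊t + y⌋₊ + 1 := Nat.lt_floor_add_one _
  have hab : ⌊t⌋₊ < ⌊t + y⌋₊ := by
    have : (⌊t⌋₊ : ℝ) < ⌊t + y⌋₊ := by linarith
    exact_mod_cast this
  refine ⟨hab, ?_⟩
  set n := ⌊t + y⌋₊ - ⌊t⌋₊ with hn
  have hn' : (n : ℝ) = ⌊t + y⌋₊ - ⌊t⌋₊ := by
    rw [hn, Nat.cast_sub hab.le]
  have hL : 0 < L t := by linarith
  have hterm : ∀ i ∈ range n, |q (⌊t⌋₊ + i + 1) - c / L t| ≤ 4 * δ * (c / L t) := by
    intro i hi
    rw [mem_range] at hi
    set k := ⌊t⌋₊ + i + 1 with hk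
    have g1 : t ≤ (k : ℝ) := by
      rw [hk]; push_cast
      have : (0 : ℝ) ≤ i := by positivity
      linarith
    have g2 : (k : ℝ) ≤ 2 * t := by
      have g3 : k ≤ ⌊t + y⌋₊ := by omega
      have g4 : (k : ℝ) ≤ ⌊t + y⌋₊ := by exact_mod_cast g3
      linarith
    have g5 : k0 ≤ k := by
      have : (k0 : ℝ) ≤ k := by linarith
      exact_mod_cast this
    have g6 := hk0 k g5
    have g7 := t1 k g1 g2
    have g8 : |L k - L t| ≤ δ * L t := by
      have : L k / L t - 1 = (L k - L t) / L t := by field_simp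
      rwa [this, abs_div, abs_of_pos hL, div_le_iff₀ hL] at g7
    rw [abs_le] at g6 g8
    have hLk : 0 < L k := by nlinarith
    have e : q k - c / L t = (L t * q k - c) / L t := by field_simp
    rw [e, abs_div, abs_of_pos hL, div_le_iff₀ hL]
    have e2 : 4 * δ * (c / L t) * L t = 4 * δ * c := by field_simp
    rw [e2]
    -- L t q k  between
    have u1 : L k * q k ≤ c * (1 + δ) := by linarith
    have u2 : c * (1 - δ) ≤ L k * q k := by linarith
    have hqk : 0 ≤ q k := by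
      by_contra hcon
      push Not at hcon
      have : L k * q k < 0 := mul_neg_of_pos_of_neg hLk hcon
      nlinarith
    have u3 : (1 - δ) * (L t * q k) ≤ L k * q k := by nlinarith
    have u4 : L k * q k ≤ (1 + δ) * (L t * q k) := by nlinarith
    rw [abs_le]
    constructor
    · by_contra hcon
      push Not at hcon
      have : (1 + δ) * (L t * q k) < (1 + δ) * (c * (1 - 4 * δ)) := by
        apply mul_lt_mul_of_pos_left _ (by linarith)
        linarith
      nlinarith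
    · by_contra hcon
      push Not at hcon
      have : (1 - δ) * (c * (1 + 4 * δ)) < (1 - δ) * (L t * q k) := by
        apply mul_lt_mul_of_pos_left _ (by linarith)
        linarith
      nlinarith
  have hcL : 0 < c / L t := by positivity
  have hsum : |∑ i ∈ range n, q (⌊t⌋₊ + i + 1) - n * (c / L t)| ≤ n * (4 * δ * (c / L t)) := by
    have e : ∑ i ∈ range n, q (⌊t⌋₊ + i + 1) - n * (c / L t) =
        ∑ i ∈ range n, (q (⌊t⌋₊ + i + 1) - c / L t) := by
      rw [sum_sub_distrib, sum_const, card_range, nsmul_eq_mul]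
    rw [e]
    calc _ ≤ ∑ i ∈ range n, |q (⌊t⌋₊ + i + 1) - c / L t| := abs_sum_le_sum_abs _ _
      _ ≤ ∑ _i ∈ range n, 4 * δ * (c / L t) := sum_le_sum hterm
      _ = _ := by rw [sum_const, card_range, nsmul_eq_mul]
  have hny : |(n : ℝ) - y| ≤ 1 := by
    rw [hn', abs_le]
    constructor <;> linarith
  have e9 : c * y / L t = y * (c / L t) := by ring
  rw [e9]
  have v1 : |(n : ℝ) * (c / L t) - y * (c / L t)| ≤ δ * y * (c / L t) := by
    have : (n : ℝ) * (c / L t) - y * (c / L t) = ((n : ℝ) - y) * (c / L t) := by ring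
    rw [this, abs_mul, abs_of_pos hcL]
    apply mul_le_mul_of_nonneg_right _ hcL.le
    linarith
  have v2 : (n : ℝ) * (4 * δ * (c / L t)) ≤ (y * (1 + 1 / 8)) * (4 * δ * (c / L t)) := by
    apply mul_le_mul_of_nonneg_right _ (by positivity)
    rw [abs_le] at hny
    linarith
  have v3 : 0 < δ * y * (c / L t) := by positivity
  rw [abs_le] at hsum v1 ⊢
  constructor
  · nlinarith
  · nlinarith

theorem exp_two_sided (τ : ℝ) (h0 : 0 < τ) (h1 : τ ≤ 1) :
    Real.exp τ - 1 ≤ τ + τ ^ 2 ∧ τ - τ ^ 2 ≤ 1 - Real.exp (-τ) := by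
  constructor
  · have := Real.abs_exp_sub_one_sub_id_le (x := τ) (by rw [abs_of_pos h0]; exact h1)
    rw [abs_le] at this
    linarith
  · have := Real.abs_exp_sub_one_sub_id_le (x := -τ) (by rw [abs_neg, abs_of_pos h0]; exact h1)
    rw [abs_le] at this
    nlinarith

theorem filter_Ioc_card (Q : ℕ → Prop) (a b : ℕ) (hab : a ≤ b) :
    (((Icc 1 b).filter Q).card : ℝ) - ((Icc 1 a).filter Q).card = ((Ioc a b).filter Q).card := by
  have e1 : (Icc 1 b).filter Q = ((Icc 1 a).filter Q) ∪ ((Ioc a b).filter Q) := by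
    ext m
    simp only [mem_filter, mem_union, mem_Icc, mem_Ioc]
    constructor
    · rintro ⟨⟨m1, m2⟩, m3⟩
      rcases Nat.lt_or_ge a m with h | h
      · exact Or.inr ⟨⟨h, m2⟩, m3⟩
      · exact Or.inl ⟨⟨m1, h⟩, m3⟩
    · rintro (⟨⟨m1, m2⟩, m3⟩ | ⟨⟨m1, m2⟩, m3⟩)
      · exact ⟨⟨m1, by omega⟩, m3⟩
      · exact ⟨⟨by omega, m2⟩, m3⟩
  have e2 : Disjoint ((Icc 1 a).filter Q) ((Ioc a b).filter Q) := by
    rw [disjoint_left]
    intro m hm1 hm2
    simp only [mem_filter, mem_Icc, mem_Ioc] at hm1 hm2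
    omega
  rw [e1, card_union_of_disjoint e2]
  push_cast
  ring

theorem ioc_sum (Q : ℕ → Prop) (x : ℕ → ℝ) (a b : ℕ) (hx : ∀ k, x k = 0 ∨ x k = 1)
    (hQ : ∀ m ∈ Ioc a b, (Q m ↔ x m = 1)) :
    (((Ioc a b).filter Q).card : ℝ) = ∑ m ∈ Ioc a b, x m := by
  rw [card_filter]
  push_cast
  apply sum_congr rfl
  intro m hm
  by_cases h : Q m
  · rw [if_pos h, (hQ m hm).1 h]
  · rw [if_neg h]
    rcases hx m with h1 | h1
    · exact h1.symm
    · exact absurd ((hQ m hm).2 h1) h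

/-- regularity of a sequence of zeros and ones -/
theorem reg_of_bounds (h : RVL L β) {x q : ℕ → ℝ} {c : ℝ} (hc : 0 < c)
    (hx : ∀ k, x k = 0 ∨ x k = 1) (hq0 : ∀ k, 0 ≤ q k)
    (hq : Tendsto (fun k : ℕ => L k * q k) atTop (𝓝 c))
    (hb : ∀ j : ℕ, ∀ᶠ b : ℕ in atTop, ∀ a : ℕ, a < b →
      Sd x q (1 / (j + 1)) a (b - a) < 4 * Real.log b ∧
      Sd x q (-(1 / (j + 1))) a (b - a) < 4 * Real.log b)
    (η : ℝ) (hη : 0 < η) (hη1 : η ≤ 1 / 4) :
    RegSet (fun m => 0 < m ∧ x m = 1) L c η β := by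
  refine ⟨by simp, hc, hη.le, hη1, h.β_nonneg, h.L_low, h.L_up, h.rv, ?_⟩
  obtain ⟨j, hj⟩ := exists_nat_gt (4 / η)
  set τ : ℝ := 1 / (j + 1) with hτ
  have hj0 : (0 : ℝ) < (j : ℝ) + 1 := by positivity
  have hτ0 : 0 < τ := by positivity
  have hτ1 : τ ≤ 1 := by
    rw [hτ, div_le_one hj0]
    have : (0 : ℝ) ≤ j := by positivity
    linarith
  have hτη : τ ≤ η / 4 := by
    rw [hτ, div_le_iff₀ hj0]
    have h1 : 4 / η < (j : ℝ) + 1 := by linarith
    rw [div_lt_iff₀ hη] at h1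
    linarith
  set δ := η / 16 with hδ
  have hδ0 : 0 < δ := by positivity
  have hδ1 : δ ≤ 1 / 8 := by linarith
  obtain ⟨C1, hC1⟩ := h.L_up
  obtain ⟨b0, hb0⟩ := eventually_atTop.1 (hb j)
  have hlogs : ∀ᶠ t : ℝ in atTop, 8 * (|C1| + 1) / (τ * c * δ) * Real.log t ^ 2 ≤ √t := by
    have h1 := (isLittleO_log_rpow_atTop (show (0 : ℝ) < 1 / 4 by norm_num)).def
      (show (0 : ℝ) < 1 / √(8 * (|C1| + 1) / (τ * c * δ)) by positivity)
    filter_upwards [h1, eventually_ge_atTop (2 : ℝ)] with t ht ht2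
    have hlt : 0 < Real.log t := Real.log_pos (by linarith)
    rw [Real.norm_of_nonneg hlt.le, Real.norm_of_nonneg (by positivity)] at ht
    set B := 8 * (|C1| + 1) / (τ * c * δ) with hB
    have hB0 : 0 < B := by positivity
    have hsB : 0 < √B := Real.sqrt_pos.2 hB0
    have h2 : √B * Real.log t ≤ t ^ ((1 : ℝ) / 4) := by
      have := mul_le_mul_of_nonneg_left ht hsB.le
      rw [← mul_assoc, mul_one_div_cancel hsB.ne', one_mul] at this
      exact this
    have h3 : (√B * Real.log t) ^ 2 ≤ (t ^ ((1 : ℝ) / 4)) ^ 2 :=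
      pow_le_pow_left₀ (by positivity) h2 2
    rw [mul_pow, Real.sq_sqrt hB0.le] at h3
    have h4 : (t ^ ((1 : ℝ) / 4)) ^ 2 = √t := by
      rw [Real.sqrt_eq_rpow, ← Real.rpow_natCast, ← Real.rpow_mul (by linarith)]
      norm_num
    rw [h4] at h3
    exact h3
  filter_upwards [sum_q h hc hq δ hδ0 hδ1, hlogs, hC1, h.L_low, eventually_ge_atTop (b0 : ℝ),
    eventually_ge_atTop (2 : ℝ)] with t t1 t2 t3 t4 t5 t6 y hy1 hy2
  obtain ⟨hab, hsum⟩ := t1 y hy1 hy2
  set a := ⌊t⌋₊ with ha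
  set b := ⌊t + y⌋₊ with hbb
  have hL : 0 < L t := by linarith
  have hlt : 0 < Real.log t := Real.log_pos (by linarith)
  have hst : 0 < √t := Real.sqrt_pos.2 (by linarith)
  have hy0 : 0 < y := by linarith
  set M := c * y / L t with hM
  have hM0 : 0 < M := by positivity
  set SQ := ∑ i ∈ range (b - a), q (a + i + 1) with hsq
  set SX := ∑ i ∈ range (b - a), x (a + i + 1) with hsx
  have hsq0 : 0 ≤ SQ := sum_nonneg fun i _ => hq0 _
  -- the counting function
  have hcnt : (ct (fun m => 0 < m ∧ x m = 1) (t + y) : ℝ) -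
      ct (fun m => 0 < m ∧ x m = 1) t = SX := by
    have e0 := filter_Ioc_card (fun m => 0 < m ∧ x m = 1) a b hab.le
    unfold ct
    rw [← hbb, ← ha]
    have e3 := ioc_sum (fun m => 0 < m ∧ x m = 1) x a b hx (fun m hm => by
      rw [mem_Ioc] at hm
      exact ⟨fun h => h.2, fun h => ⟨by omega, h⟩⟩)
    have e4 : ∑ m ∈ Ioc a b, x m = SX := by
      rw [hsx]
      symm
      apply sum_bij (fun i _ => a + i + 1)
      · intro i hi
        rw [mem_range] at hi
        rw [mem_Ioc]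
        omega
      · intro i _ j _ hij
        omega
      · intro m hm
        rw [mem_Ioc] at hm
        exact ⟨m - a - 1, by rw [mem_range]; omega, by omega⟩
      · intro i _
        rfl
    rw [← e4, ← e3]
    exact e0
  rw [hcnt]
  have hbt : b0 ≤ b := by
    have h1 : (b0 : ℝ) < b + 1 := by
      have : t + y < b + 1 := Nat.lt_floor_add_one _
      linarith
    have h2 : b0 < b + 1 := by exact_mod_cast h1
    omega
  obtain ⟨s1, s2⟩ := hb0 b hbt a hab
  have hb1 : (b : ℝ) ≤ t + y := Nat.floor_le (by linarith)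
  have hbpos : (0 : ℝ) < b := by
    have : 0 < b := by omega
    exact_mod_cast this
  have hlb : Real.log b ≤ 2 * Real.log t := by
    have e : Real.log (t * t) = 2 * Real.log t := by
      rw [Real.log_mul (by linarith) (by linarith)]; ring
    rw [← e]
    apply Real.log_le_log hbpos
    nlinarith
  have hR : 4 * Real.log b ≤ τ * (δ * M) := by
    have g1 : L t ≤ (|C1| + 1) * Real.log t := by
      have := le_abs_self C1
      nlinarith
    have g2 : 8 * (|C1| + 1) / (τ * c * δ) * Real.log t ^ 2 ≤ y := t2.trans hy1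
    have g3 : 8 * Real.log t * L t ≤ τ * δ * c * y := by
      have g4 : 8 * (|C1| + 1) * Real.log t ^ 2 ≤ y * (τ * c * δ) := by
        rwa [div_mul_eq_mul_div, div_le_iff₀ (by positivity)] at g2
      nlinarith
    have g5 : τ * (δ * M) = τ * δ * c * y / L t := by rw [hM]; ring
    rw [g5, le_div_iff₀ hL]
    nlinarith
  obtain ⟨E1, E2⟩ := exp_two_sided τ hτ0 hτ1
  have S1 : Sd x q τ a (b - a) = τ * SX - (Real.exp τ - 1) * SQ := by
    unfold Sd
    rw [sum_sub_distrib, ← mul_sum, ← mul_sum]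
  have S2 : Sd x q (-τ) a (b - a) = -τ * SX - (Real.exp (-τ) - 1) * SQ := by
    unfold Sd
    rw [sum_sub_distrib, ← mul_sum, ← mul_sum]
  rw [S1] at s1
  rw [S2] at s2
  have U1 : SX ≤ SQ + τ * SQ + δ * M := by
    have : τ * SX ≤ τ * (SQ + τ * SQ + δ * M) := by nlinarith
    exact le_of_mul_le_mul_left this hτ0
  have U2 : SQ - τ * SQ - δ * M ≤ SX := by
    have : τ * (SQ - τ * SQ - δ * M) ≤ τ * SX := by nlinarith
    exact le_of_mul_le_mul_left this hτ0
  have hsqM : SQ ≤ 2 * M := by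
    rw [abs_le] at hsum
    nlinarith
  have W : τ * SQ ≤ η / 2 * M := by
    calc τ * SQ ≤ (η / 4) * (2 * M) := mul_le_mul hτη hsqM hsq0 (by positivity)
      _ = _ := by ring
  have hδM : 6 * δ * M + δ * M ≤ η / 2 * M := by
    have : 6 * δ * M + δ * M = 7 * δ * M := by ring
    rw [this, hδ]
    nlinarith
  rw [abs_le] at hsum ⊢
  constructor
  · linarith
  · linarith

end Pool.Agent.Lib.MP_3ef1ab_nt
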