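import Pool.Agent.Lib.MP_3ef1ab_nt.M.Det

/-! MP_3ef1ab_nt, part M (random models), module Gen: Sun's law for random sets with prescribed
conditional densities. -/

set_option autoImplicit false

namespace Pool.Agent.Lib.MP_3ef1ab_nt

open Finset Filter Topology MeasureTheory
open scoped Classical

variable {Ω : Type*} {m0 : MeasurableSpace Ω} {P : Measure Ω} [IsProbabilityMeasure P]
  {ℱ : Filtration ℕ m0} {A : ℕ → Set Ω}

/-- indicator functions -/
noncomputable def Xi (A : ℕ → Set Ω) (k : ℕ) : Ω → ℝ := (A k).indicator (fun _ => (1 : ℝ))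

/-- conditional densities, truncated to `[0, 1]` -/
noncomputable def Qc (P : Measure Ω) (ℱ : Filtration ℕ m0) (A : ℕ → Set Ω) : ℕ → Ω → ℝ
  | 0 => fun _ => 0
  | k + 1 => fun ω => max (min ((P[(A (k + 1)).indicator (fun _ => (1 : ℝ)) | ℱ k]) ω) 1) 0

theorem Xi_meas (hA : ∀ k, MeasurableSet[ℱ k] (A k)) (k : ℕ) :
    StronglyMeasurable[ℱ k] (Xi A k) :=
  stronglyMeasurable_const.indicator (hA k)

theorem Xi_01 (A : ℕ → Set Ω) (k : ℕ) (ω : Ω) : Xi A k ω = 0 ∨ Xi A k ω = 1 := by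
  unfold Xi
  by_cases h : ω ∈ A k
  · right; rw [Set.indicator_of_mem h]
  · left; rw [Set.indicator_of_notMem h]

theorem Xi_int (hA : ∀ k, MeasurableSet[ℱ k] (A k)) (k : ℕ) : Integrable (Xi A k) P := by
  apply bdd_int ((Xi_meas hA k).mono (ℱ.le _)) 1
  intro ω
  rcases Xi_01 A k ω with h | h <;> rw [h] <;> simp

theorem Qc_ae (hA : ∀ k, MeasurableSet[ℱ k] (A k)) (k : ℕ) :
    P[Xi A (k + 1) | ℱ k] =ᵐ[P] Qc P ℱ A (k + 1) := by
  have h1 : 0 ≤ᵐ[P] P[Xi A (k + 1) | ℱ k] := by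
    apply condExp_nonneg
    apply Eventually.of_forall
    intro ω
    rcases Xi_01 A (k + 1) ω with h | h
    · simp [h]
    · simp [h]
  have h2 : P[Xi A (k + 1) | ℱ k] ≤ᵐ[P] P[(fun _ => (1 : ℝ)) | ℱ k] := by
    apply condExp_mono (Xi_int hA (k + 1)) (integrable_const _)
    apply Eventually.of_forall
    intro ω
    rcases Xi_01 A (k + 1) ω with h | h
    · simp [h]
    · simp [h]
  rw [condExp_const (ℱ.le k)] at h2
  filter_upwards [h1, h2] with ω k1 k2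
  change (P[Xi A (k + 1) | ℱ k]) ω = max (min ((P[Xi A (k + 1) | ℱ k]) ω) 1) 0
  rw [min_eq_left k2, max_eq_left (show (0 : ℝ) ≤ (P[Xi A (k + 1) | ℱ k]) ω from k1)]

theorem mod_of (hA : ∀ k, MeasurableSet[ℱ k] (A k)) : Mod P ℱ (Xi A) (Qc P ℱ A) where
  adX := Xi_meas hA
  x01 := Xi_01 A
  mq k := by
    have h1 : StronglyMeasurable[ℱ k] (P[(A (k + 1)).indicator (fun _ => (1 : ℝ)) | ℱ k]) :=
      stronglyMeasurable_condExp
    have h2 : Continuous (fun r : ℝ => max (min r 1) 0) :=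
      (continuous_id.min continuous_const).max continuous_const
    exact h2.comp_stronglyMeasurable h1
  q01 k ω := by
    rcases k with _ | k
    · exact ⟨le_rfl, zero_le_one⟩
    · exact ⟨le_max_right _ _, max_le (min_le_right _ _) zero_le_one⟩
  ce := Qc_ae hA

/-- SUN'S LAW for random sets: if the conditional probability of `k + 1 ∈ Q` given `ℱ k` is
`(c + o(1)) / L(k + 1)` almost surely, with `L` regularly varying of index `β` in `log k`, then
almost surely `N(n) / n → 2^(-β)`. -/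
theorem random_law {L : ℝ → ℝ} {β : ℝ} (hL : RVL L β) (hA : ∀ k, MeasurableSet[ℱ k] (A k))
    (c : Ω → ℝ) (hq : ∀ᵐ ω ∂P, 0 < c ω ∧ Tendsto (fun k : ℕ => L ((k + 1 : ℕ) : ℝ) *
      (P[(A (k + 1)).indicator (fun _ => (1 : ℝ)) | ℱ k]) ω) atTop (𝓝 (c ω))) :
    ∀ᵐ ω ∂P, Tendsto (fun n : ℕ => (cn (fun m => 0 < m ∧ ω ∈ A m) n : ℝ) / n) atTop
      (𝓝 (2 ^ (-β))) := by
  have hM := mod_of (P := P) hA
  have h1 : ∀ᵐ ω ∂P, ∀ j : ℕ, ∀ᶠ b : ℕ in atTop, ∀ a : ℕ, a < b →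
      Sx (Xi A) (Qc P ℱ A) (1 / (j + 1)) a (b - a) ω < 4 * Real.log b :=
    ae_all_iff.2 fun j => hM.ae _
  have h2 : ∀ᵐ ω ∂P, ∀ j : ℕ, ∀ᶠ b : ℕ in atTop, ∀ a : ℕ, a < b →
      Sx (Xi A) (Qc P ℱ A) (-(1 / (j + 1))) a (b - a) ω < 4 * Real.log b :=
    ae_all_iff.2 fun j => hM.ae _
  have h3 : ∀ᵐ ω ∂P, ∀ k : ℕ, (P[Xi A (k + 1) | ℱ k]) ω = Qc P ℱ A (k + 1) ω :=
    ae_all_iff.2 fun k => Qc_ae hA k
  filter_upwards [h1, h2, h3, hq] with ω k1 k2 k3 k4
  obtain ⟨hc, hlim⟩ := k4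
  have hq' : Tendsto (fun k : ℕ => L k * Qc P ℱ A k ω) atTop (𝓝 (c ω)) := by
    rw [← tendsto_add_atTop_iff_nat 1]
    refine hlim.congr fun k => ?_
    rw [← k3 k]
    rfl
  have hset : (fun m => 0 < m ∧ ω ∈ A m) = fun m => 0 < m ∧ Xi A m ω = 1 := by
    funext m
    have : ω ∈ A m ↔ Xi A m ω = 1 := by
      unfold Xi
      by_cases h : ω ∈ A m
      · simp [h]
      · simp [h]
    rw [this]
  rw [hset]
  have hreg : ∀ η : ℝ, 0 < η → η ≤ 1 / 4 → RegSet (fun m => 0 < m ∧ Xi A m ω = 1) L (c ω) η β := by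
    intro η h0 h1
    refine reg_of_bounds hL hc (fun k => Xi_01 A k ω) (fun k => ((hM).q01 k ω).1) hq' ?_ η h0 h1
    intro j
    filter_upwards [k1 j, k2 j] with b b1 b2 a hab
    exact ⟨b1 a hab, b2 a hab⟩
  rw [Metric.tendsto_nhds]
  intro ε hε
  set η := min (1 / 4) (ε / 8) with hη
  have hη0 : 0 < η := lt_min (by norm_num) (by positivity)
  have hη1 : η ≤ ε / 8 := min_le_right _ _
  filter_upwards [(hreg η hη0 (min_le_left _ _)).law (ε / 4) (by positivity)] with n hn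
  rw [Real.dist_eq]
  linarith

end Pool.Agent.Lib.MP_3ef1ab_nt
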