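import Pool.Agent.Lib.MP_3ef1ab_nt.M.Gen

/-! MP_3ef1ab_nt, part M (random models), module Hawk: the Hawkins random sieve. -/

set_option autoImplicit false

namespace Pool.Agent.Lib.MP_3ef1ab_nt

open Finset Filter Topology MeasureTheory
open scoped Classical NNReal ENNReal

variable {Ω : Type*} {m0 : MeasurableSpace Ω} {P : Measure Ω}
  {ℱ : Filtration ℕ m0} {A : ℕ → Set Ω}

/-- the inverse of the density after `k` steps -/
noncomputable def Zh (A : ℕ → Set Ω) (k : ℕ) (ω : Ω) : ℝ :=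
  ∏ j ∈ Icc 2 k, (1 + Xi A j ω / ((j : ℝ) - 1))

theorem Zh_small (A : ℕ → Set Ω) (k : ℕ) (hk : k ≤ 1) (ω : Ω) : Zh A k ω = 1 := by
  unfold Zh
  rw [Icc_eq_empty (by omega), prod_empty]

theorem Zh_succ (A : ℕ → Set Ω) (k : ℕ) (hk : 1 ≤ k) (ω : Ω) :
    Zh A (k + 1) ω = Zh A k ω * (1 + Xi A (k + 1) ω / k) := by
  unfold Zh
  rw [prod_Icc_succ_top (by omega)]
  congr 3
  push_cast
  ring

theorem Zh_one_le (A : ℕ → Set Ω) (k : ℕ) (ω : Ω) : 1 ≤ Zh A k ω := by
  induction k with
  | zero => rw [Zh_small A 0 (by omega)]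
  | succ k ih =>
    rcases Nat.eq_zero_or_pos k with h | h
    · subst h
      rw [Zh_small A _ (by omega)]
    · rw [Zh_succ A k h]
      have h1 : 0 ≤ Xi A (k + 1) ω := by
        rcases Xi_01 A (k + 1) ω with h | h <;> rw [h]
        exact zero_le_one
      have h2 : 0 ≤ Xi A (k + 1) ω / k := by positivity
      nlinarith

theorem Zh_le (A : ℕ → Set Ω) (k : ℕ) (ω : Ω) : Zh A k ω ≤ k + 1 := by
  induction k with
  | zero => rw [Zh_small A 0 (by omega)]; simp
  | succ k ih =>
    rcases Nat.eq_zero_or_pos k with h | h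
    · subst h
      rw [Zh_small A _ (by omega)]
      norm_num
    · rw [Zh_succ A k h]
      have hk : (0 : ℝ) < k := by exact_mod_cast h
      have h0 := Zh_one_le A k ω
      have h1 : Xi A (k + 1) ω / k ≤ 1 / k := by
        apply div_le_div_of_nonneg_right _ hk.le
        rcases Xi_01 A (k + 1) ω with h | h <;> rw [h]
        exact zero_le_one
      have h1' : 0 ≤ Xi A (k + 1) ω / k := by
        apply div_nonneg _ hk.le
        rcases Xi_01 A (k + 1) ω with h | h <;> rw [h]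
        exact zero_le_one
      have h2 : Zh A k ω ≤ k := by
        -- stronger bound
        clear ih h1 h1' h0
        induction k with
        | zero => omega
        | succ j ihj =>
          rcases Nat.eq_zero_or_pos j with hj | hj
          · subst hj
            rw [Zh_small A _ (by omega)]
            norm_num
          · have hj0 : (0 : ℝ) < j := by exact_mod_cast hj
            have i1 := ihj hj hj0
            rw [Zh_succ A j hj]
            have i2 : Xi A (j + 1) ω / j ≤ 1 / j := by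
              apply div_le_div_of_nonneg_right _ hj0.le
              rcases Xi_01 A (j + 1) ω with h | h <;> rw [h]
              exact zero_le_one
            have i3 := Zh_one_le A j ω
            calc Zh A j ω * (1 + Xi A (j + 1) ω / j) ≤ j * (1 + 1 / j) := by
                  apply mul_le_mul i1 (by linarith) _ hj0.le
                  have : 0 ≤ Xi A (j + 1) ω / j := by
                    apply div_nonneg _ hj0.le
                    rcases Xi_01 A (j + 1) ω with h | h <;> rw [h]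
                    exact zero_le_one
                  linarith
              _ = ((j + 1 : ℕ) : ℝ) := by push_cast; field_simp
      calc Zh A k ω * (1 + Xi A (k + 1) ω / k) ≤ k * (1 + 1 / k) := by
            apply mul_le_mul h2 (by linarith) (by linarith) hk.le
        _ = k + 1 := by field_simp
        _ ≤ _ := by push_cast; linarith

theorem Zh_inv (A : ℕ → Set Ω) (k : ℕ) (ω : Ω) :
    ∏ j ∈ (Icc 2 k).filter (fun j => ω ∈ A j), (1 - 1 / (j : ℝ)) = (Zh A k ω)⁻¹ := by
  have hZ := Zh_one_le A k ω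
  apply eq_inv_of_mul_eq_one_left
  rw [prod_filter]
  unfold Zh
  rw [← prod_mul_distrib]
  apply prod_eq_one
  intro j hj
  rw [mem_Icc] at hj
  have hj2 : (2 : ℝ) ≤ j := by exact_mod_cast hj.1
  by_cases h : ω ∈ A j
  · rw [if_pos h]
    have : Xi A j ω = 1 := by unfold Xi; rw [Set.indicator_of_mem h]
    rw [this]
    have h1 : (j : ℝ) - 1 ≠ 0 := by linarith
    have h2 : (j : ℝ) ≠ 0 := by linarith
    field_simp
    ring
  · rw [if_neg h]
    have : Xi A j ω = 0 := by unfold Xi; rw [Set.indicator_of_notMem h]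
    rw [this]
    simp

/-- harmonic sums -/
noncomputable def hk (k : ℕ) : ℝ := ∑ j ∈ Ico 1 k, 1 / (j : ℝ)

theorem hk_succ (k : ℕ) (h : 1 ≤ k) : hk (k + 1) = hk k + 1 / k := by
  unfold hk
  rw [sum_Ico_succ_top h]

theorem hk_small (k : ℕ) (h : k ≤ 1) : hk k = 0 := by
  unfold hk
  rw [Ico_eq_empty (by omega), sum_empty]

theorem hk_nonneg (k : ℕ) : 0 ≤ hk k := sum_nonneg fun j _ => by positivity

theorem hk_harm (n : ℕ) : hk (n + 1) = (harmonic n : ℝ) := by
  induction n with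
  | zero => rw [hk_small _ (by omega)]; simp
  | succ n ih =>
    rw [hk_succ _ (by omega), ih, harmonic_succ]
    push_cast
    rw [one_div]

theorem hk_le (k : ℕ) : hk k ≤ 3 * √(k : ℝ) := by
  induction k with
  | zero => rw [hk_small _ (by omega)]; simp
  | succ k ih =>
    rcases Nat.eq_zero_or_pos k with h | h
    · subst h
      rw [hk_small _ (by omega)]
      positivity
    · rw [hk_succ k h]
      have hk0 : (1 : ℝ) ≤ k := by exact_mod_cast h
      push_cast
      set s := √(k : ℝ)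
      set t := √((k : ℝ) + 1)
      have hs : s ^ 2 = k := Real.sq_sqrt (by linarith)
      have ht : t ^ 2 = k + 1 := Real.sq_sqrt (by linarith)
      have hs0 : 0 ≤ s := Real.sqrt_nonneg _
      have ht0 : 0 ≤ t := Real.sqrt_nonneg _
      have hs1 : s ≤ k := by nlinarith
      have ht1 : t ≤ 2 * k := by
        by_contra hcon
        push Not at hcon
        nlinarith
      have h1 : (t - s) * (t + s) = 1 := by nlinarith
      have h2 : t + s ≤ 3 * k := by linarith
      have h3 : 1 / (k : ℝ) ≤ 3 * (t - s) := by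
        rw [div_le_iff₀ (by linarith)]
        have h4 : 0 < t + s := by
          by_contra hcon
          push Not at hcon
          have : t + s = 0 := by linarith
          rw [this] at h1
          linarith
        have h5 : 0 < t - s := by
          by_contra hcon
          push Not at hcon
          nlinarith
        nlinarith
      linarith

/-- `h k - log (k + 1)` is bounded -/
theorem hk_log (k : ℕ) (h : 1 ≤ k) : |hk k - Real.log (k + 1)| ≤ 1 := by
  obtain ⟨n, rfl⟩ : ∃ n, k = n + 1 := ⟨k - 1, by omega⟩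
  rw [hk_harm]
  have h1 := harmonic_le_one_add_log n
  have h2 := log_add_one_le_harmonic n
  push_cast at h1 h2 ⊢
  have h3 : Real.log ((n : ℝ) + 1 + 1) ≤ Real.log (n + 1) + 1 := by
    have e : Real.log (((n : ℝ) + 1) * Real.exp 1) = Real.log (n + 1) + 1 := by
      rw [Real.log_mul (by positivity) (Real.exp_pos _).ne', Real.log_exp]
    rw [← e]
    apply Real.log_le_log (by positivity)
    have : (2 : ℝ) ≤ Real.exp 1 := by
      have := Real.add_one_le_exp (1 : ℝ)
      linarith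
    have hn : (0 : ℝ) ≤ n := by positivity
    nlinarith
  have h4 : Real.log (n : ℝ) ≤ Real.log ((n : ℝ) + 1 + 1) := by
    rcases Nat.eq_zero_or_pos n with h | h
    · subst h
      simp only [Nat.cast_zero, Real.log_zero]
      apply Real.log_nonneg
      norm_num
    · have : (0 : ℝ) < n := by exact_mod_cast h
      apply Real.log_le_log this
      linarith
  rw [abs_le]
  constructor <;> linarith

theorem Zh_meas (hA : ∀ k, MeasurableSet[ℱ k] (A k)) (k : ℕ) :
    StronglyMeasurable[ℱ k] (Zh A k) := by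
  induction k with
  | zero =>
    have : Zh A 0 = fun _ : Ω => (1 : ℝ) := by
      funext ω
      exact Zh_small A 0 (by omega) ω
    rw [this]
    exact stronglyMeasurable_const
  | succ k ih =>
    rcases Nat.eq_zero_or_pos k with h | h
    · have : Zh A (k + 1) = fun _ : Ω => (1 : ℝ) := by
        funext ω
        exact Zh_small A _ (by omega) ω
      rw [this]
      exact stronglyMeasurable_const
    · have : Zh A (k + 1) = fun ω => Zh A k ω * (1 + (1 / (k : ℝ)) * Xi A (k + 1) ω) := by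
        funext ω
        rw [Zh_succ A k h]
        ring
      rw [this]
      have h1 : StronglyMeasurable[ℱ (k + 1)] (Zh A k) := ih.mono (ℱ.mono (by omega))
      have h2 : StronglyMeasurable[ℱ (k + 1)] (Xi A (k + 1)) := Xi_meas hA _
      have h3 : StronglyMeasurable[ℱ (k + 1)] (fun _ : Ω => (1 : ℝ)) := stronglyMeasurable_const
      exact h1.mul (h3.add (h2.const_mul _))

section
variable [IsProbabilityMeasure P]

omit [IsProbabilityMeasure P] in
theorem Hawkins.ce (h : Hawkins P ℱ A) (k : ℕ) (hk : 1 ≤ k) :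
    P[Xi A (k + 1) | ℱ k] =ᵐ[P] fun ω => (Zh A k ω)⁻¹ := by
  filter_upwards [h.step k hk] with ω hω
  change (P[(A (k + 1)).indicator (fun _ => (1 : ℝ)) | ℱ k]) ω = _
  rw [hω, Zh_inv]

theorem Hawkins.pull (h : Hawkins P ℱ A) (k : ℕ) (hk : 1 ≤ k) (F : Ω → ℝ)
    (hF : StronglyMeasurable[ℱ k] F) (C : ℝ) (hC : ∀ ω, |F ω| ≤ C) :
    ∫ ω, F ω * Xi A (k + 1) ω ∂P = ∫ ω, F ω * (Zh A k ω)⁻¹ ∂P := by
  have hXm : StronglyMeasurable[m0] (Xi A (k + 1)) := (Xi_meas h.meas _).mono (ℱ.le _)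
  have iFX : Integrable (F * Xi A (k + 1)) P := by
    apply bdd_int ((hF.mono (ℱ.le _)).mul hXm) C
    intro ω
    rw [Pi.mul_apply, abs_mul]
    have h1 : |Xi A (k + 1) ω| ≤ 1 := by
      rcases Xi_01 A (k + 1) ω with h | h <;> rw [h] <;> simp
    calc |F ω| * |Xi A (k + 1) ω| ≤ |F ω| * 1 := mul_le_mul_of_nonneg_left h1 (abs_nonneg _)
      _ ≤ C := by rw [mul_one]; exact hC ω
  have h1 := condExp_mul_of_stronglyMeasurable_left hF iFX (Xi_int (P := P) h.meas (k + 1))
  have h2 := h.ce k hk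
  calc ∫ ω, F ω * Xi A (k + 1) ω ∂P = ∫ ω, (F * Xi A (k + 1)) ω ∂P := rfl
    _ = ∫ ω, (P[F * Xi A (k + 1) | ℱ k]) ω ∂P := (integral_condExp (ℱ.le k)).symm
    _ = _ := by
        apply integral_congr_ae
        filter_upwards [h1, h2] with ω h1 h2
        rw [h1, Pi.mul_apply, h2]

theorem Hawkins.int_Zh (h : Hawkins P ℱ A) (k : ℕ) : Integrable (Zh A k) P := by
  apply bdd_int ((Zh_meas h.meas k).mono (ℱ.le _)) (k + 1)
  intro ω
  have := Zh_one_le A k ω
  rw [abs_of_nonneg (by linarith)]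
  exact Zh_le A k ω

theorem Hawkins.mean (h : Hawkins P ℱ A) (k : ℕ) : ∫ ω, Zh A k ω ∂P = 1 + hk k := by
  induction k with
  | zero =>
    simp only [Zh_small A 0 (by omega), hk_small 0 (by omega)]
    simp
  | succ k ih =>
    rcases Nat.eq_zero_or_pos k with hk0 | hk0
    · subst hk0
      simp only [Zh_small A (0 + 1) (by omega), hk_small (0 + 1) (by omega)]
      simp
    · have hkr : (0 : ℝ) < k := by exact_mod_cast hk0
      have hF : StronglyMeasurable[ℱ k] (fun ω => (1 / (k : ℝ)) * Zh A k ω) :=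
        (Zh_meas h.meas k).const_mul _
      have hb : ∀ ω, |(1 / (k : ℝ)) * Zh A k ω| ≤ (1 / (k : ℝ)) * (k + 1) := by
        intro ω
        have h1 := Zh_one_le A k ω
        rw [abs_of_nonneg (by positivity)]
        exact mul_le_mul_of_nonneg_left (Zh_le A k ω) (by positivity)
      have h1 := h.pull k hk0 _ hF _ hb
      have iX : Integrable (fun ω => (1 / (k : ℝ)) * Zh A k ω * Xi A (k + 1) ω) P := by
        apply bdd_int ((hF.mono (ℱ.le _)).mul ((Xi_meas h.meas _).mono (ℱ.le _)))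
          ((1 / (k : ℝ)) * (k + 1))
        intro ω
        have h1 : |Xi A (k + 1) ω| ≤ 1 := by
          rcases Xi_01 A (k + 1) ω with h | h <;> rw [h] <;> simp
        rw [Pi.mul_apply, abs_mul]
        calc |(1 / (k : ℝ)) * Zh A k ω| * |Xi A (k + 1) ω|
            ≤ |(1 / (k : ℝ)) * Zh A k ω| * 1 := mul_le_mul_of_nonneg_left h1 (abs_nonneg _)
          _ ≤ _ := by rw [mul_one]; exact hb ω
      have e1 : ∀ ω, Zh A (k + 1) ω = Zh A k ω + (1 / (k : ℝ)) * Zh A k ω * Xi A (k + 1) ω := by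
        intro ω
        rw [Zh_succ A k hk0]
        ring
      have e2 : ∀ ω, (1 / (k : ℝ)) * Zh A k ω * (Zh A k ω)⁻¹ = 1 / (k : ℝ) := by
        intro ω
        have h1 := Zh_one_le A k ω
        rw [mul_assoc, mul_inv_cancel₀ (by linarith), mul_one]
      simp only [e1]
      rw [integral_add (h.int_Zh k) iX, ih, h1]
      simp only [e2]
      rw [hk_succ k hk0]
      simp only [integral_const, probReal_univ, smul_eq_mul, one_mul]
      ring

/-- the martingale -/
noncomputable def Mh (A : ℕ → Set Ω) (k : ℕ) : Ω → ℝ := fun ω => Zh A k ω - hk k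

omit [IsProbabilityMeasure P] in
theorem Hawkins.Mh_meas (h : Hawkins P ℱ A) (k : ℕ) : StronglyMeasurable[ℱ k] (Mh A k) := by
  have h1 : StronglyMeasurable[ℱ k] (fun _ : Ω => hk k) := stronglyMeasurable_const
  exact (Zh_meas h.meas k).sub h1

theorem Mh_bd (A : ℕ → Set Ω) (k : ℕ) (ω : Ω) : |Mh A k ω| ≤ k + 1 + hk k := by
  unfold Mh
  have h1 := Zh_one_le A k ω
  have h2 := Zh_le A k ω
  have h3 := hk_nonneg k
  rw [abs_le]
  constructor <;> linarith

theorem Hawkins.Mh_int (h : Hawkins P ℱ A) (k : ℕ) : Integrable (Mh A k) P :=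
  bdd_int ((h.Mh_meas k).mono (ℱ.le _)) _ (Mh_bd A k)

theorem Hawkins.mart (h : Hawkins P ℱ A) : Martingale (Mh A) ℱ P := by
  apply martingale_of_condExp_sub_eq_zero_nat (h.Mh_meas) (h.Mh_int)
  intro k
  rcases Nat.eq_zero_or_pos k with hk0 | hk0
  · subst hk0
    have : Mh A (0 + 1) - Mh A 0 = 0 := by
      funext ω
      rw [Pi.sub_apply]
      unfold Mh
      rw [Zh_small A _ (by omega), Zh_small A _ (by omega), hk_small _ (by omega),
        hk_small _ (by omega)]
      simp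
    rw [this, condExp_zero]
  · have hF : StronglyMeasurable[ℱ k] (fun ω => (1 / (k : ℝ)) * Zh A k ω) :=
      (Zh_meas h.meas k).const_mul _
    have hb : ∀ ω, |(1 / (k : ℝ)) * Zh A k ω| ≤ (1 / (k : ℝ)) * (k + 1) := by
      intro ω
      have h1 := Zh_one_le A k ω
      rw [abs_of_nonneg (by positivity)]
      exact mul_le_mul_of_nonneg_left (Zh_le A k ω) (by positivity)
    set F : Ω → ℝ := fun ω => (1 / (k : ℝ)) * Zh A k ω with hFdef
    have iX : Integrable (F * Xi A (k + 1)) P := by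
      apply bdd_int ((hF.mono (ℱ.le _)).mul ((Xi_meas h.meas _).mono (ℱ.le _)))
        ((1 / (k : ℝ)) * (k + 1))
      intro ω
      have h1 : |Xi A (k + 1) ω| ≤ 1 := by
        rcases Xi_01 A (k + 1) ω with h | h <;> rw [h] <;> simp
      rw [Pi.mul_apply, abs_mul]
      calc |F ω| * |Xi A (k + 1) ω|
          ≤ |F ω| * 1 := mul_le_mul_of_nonneg_left h1 (abs_nonneg _)
        _ ≤ _ := by rw [mul_one]; exact hb ω
    have e1 : Mh A (k + 1) - Mh A k = F * Xi A (k + 1) - fun _ => 1 / (k : ℝ) := by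
      funext ω
      rw [Pi.sub_apply, Pi.sub_apply, Pi.mul_apply]
      unfold Mh
      rw [Zh_succ A k hk0, hk_succ k hk0, hFdef]
      ring
    rw [e1]
    have h1 := condExp_sub iX (integrable_const (1 / (k : ℝ)) : Integrable
      (fun _ : Ω => 1 / (k : ℝ)) P) (ℱ k)
    have h2 := condExp_mul_of_stronglyMeasurable_left hF iX (Xi_int (P := P) h.meas (k + 1))
    have h3 := h.ce k hk0
    rw [condExp_const (ℱ.le k)] at h1
    filter_upwards [h1, h2, h3] with ω h1 h2 h3
    rw [h1, Pi.sub_apply, h2, Pi.mul_apply, h3, hFdef]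
    have h4 := Zh_one_le A k ω
    simp only [Pi.zero_apply]
    rw [mul_assoc, mul_inv_cancel₀ (by linarith), mul_one, sub_self]

theorem Hawkins.second (h : Hawkins P ℱ A) (k : ℕ) (hk0 : 1 ≤ k) :
    ∫ ω, Mh A (k + 1) ω ^ 2 ∂P = ∫ ω, Mh A k ω ^ 2 ∂P + hk k / (k : ℝ) ^ 2 := by
  have hkr : (0 : ℝ) < k := by exact_mod_cast hk0
  set B : ℝ := k + 1 + hk k with hB
  have hB0 : 0 ≤ B := by
    have := hk_nonneg k
    positivity
  set F : Ω → ℝ := fun ω => (2 / k) * (Mh A k ω * Zh A k ω) +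
    (1 / (k : ℝ) ^ 2) * (Zh A k ω * Zh A k ω - 2 * Zh A k ω) with hF
  set G : Ω → ℝ := fun ω => Mh A k ω ^ 2 - (2 / k) * Mh A k ω + 1 / (k : ℝ) ^ 2 with hG
  have hZm := Zh_meas h.meas k
  have hMm := h.Mh_meas k
  have hFm : StronglyMeasurable[ℱ k] F :=
    ((hMm.mul hZm).const_mul _).add (((hZm.mul hZm).sub (hZm.const_mul 2)).const_mul _)
  have hFb : ∀ ω, |F ω| ≤ (2 / k) * (B * (k + 1)) +
      (1 / (k : ℝ) ^ 2) * ((k + 1) * (k + 1) + 2 * (k + 1)) := by
    intro ω
    have h1 := Zh_one_le A k ω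
    have h2 := Zh_le A k ω
    have h3 := Mh_bd A k ω
    have h4 : |Mh A k ω * Zh A k ω| ≤ B * (k + 1) := by
      rw [abs_mul, abs_of_nonneg (show 0 ≤ Zh A k ω by linarith)]
      exact mul_le_mul h3 h2 (by linarith) hB0
    have h5 : |Zh A k ω * Zh A k ω - 2 * Zh A k ω| ≤ (k + 1) * (k + 1) + 2 * (k + 1) := by
      have h6 : Zh A k ω * Zh A k ω ≤ (k + 1) * (k + 1) :=
        mul_le_mul h2 h2 (by linarith) (by positivity)
      have h7 : 0 ≤ Zh A k ω * Zh A k ω := mul_self_nonneg _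
      have h8 : (0 : ℝ) ≤ (k + 1) * (k + 1) := by positivity
      rw [abs_le]
      constructor <;> linarith
    calc |F ω| ≤ |(2 / k) * (Mh A k ω * Zh A k ω)| +
          |(1 / (k : ℝ) ^ 2) * (Zh A k ω * Zh A k ω - 2 * Zh A k ω)| := abs_add_le _ _
      _ ≤ _ := by
          rw [abs_mul (2 / (k : ℝ)), abs_mul (1 / (k : ℝ) ^ 2),
            abs_of_nonneg (show (0 : ℝ) ≤ 2 / k by positivity),
            abs_of_nonneg (show (0 : ℝ) ≤ 1 / (k : ℝ) ^ 2 by positivity)]
          exact add_le_add (mul_le_mul_of_nonneg_left h4 (by positivity))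
            (mul_le_mul_of_nonneg_left h5 (by positivity))
  have hGint : Integrable G P := by
    have hGm : StronglyMeasurable[ℱ k] G := by
      have h1 : StronglyMeasurable[ℱ k] (fun ω => Mh A k ω ^ 2) := hMm.pow 2
      have h2 : StronglyMeasurable[ℱ k] (fun _ : Ω => 1 / (k : ℝ) ^ 2) := stronglyMeasurable_const
      exact (h1.sub (hMm.const_mul _)).add h2
    apply bdd_int (hGm.mono (ℱ.le _)) (B ^ 2 + (2 / k) * B + 1 / (k : ℝ) ^ 2)
    intro ω
    have h3 := Mh_bd A k ω
    have h4 : |Mh A k ω ^ 2| ≤ B ^ 2 := by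
      rw [abs_pow]
      exact pow_le_pow_left₀ (abs_nonneg _) h3 2
    have h5 : |(2 / k) * Mh A k ω| ≤ (2 / k) * B := by
      rw [abs_mul, abs_of_nonneg (show (0 : ℝ) ≤ 2 / k by positivity)]
      exact mul_le_mul_of_nonneg_left h3 (by positivity)
    have h6 : |1 / (k : ℝ) ^ 2| = 1 / (k : ℝ) ^ 2 := abs_of_nonneg (by positivity)
    calc |G ω| ≤ |Mh A k ω ^ 2 - (2 / k) * Mh A k ω| + |1 / (k : ℝ) ^ 2| := abs_add_le _ _
      _ ≤ (|Mh A k ω ^ 2| + |(2 / k) * Mh A k ω|) + |1 / (k : ℝ) ^ 2| := by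
          apply add_le_add_left
          exact abs_sub _ _
      _ ≤ _ := by rw [h6]; linarith
  have hFX : Integrable (fun ω => F ω * Xi A (k + 1) ω) P := by
    apply bdd_int ((hFm.mono (ℱ.le _)).mul ((Xi_meas h.meas _).mono (ℱ.le _)))
      ((2 / k) * (B * (k + 1)) + (1 / (k : ℝ) ^ 2) * ((k + 1) * (k + 1) + 2 * (k + 1)))
    intro ω
    have h1 : |Xi A (k + 1) ω| ≤ 1 := by
      rcases Xi_01 A (k + 1) ω with h | h <;> rw [h] <;> simp
    rw [Pi.mul_apply, abs_mul]
    calc |F ω| * |Xi A (k + 1) ω|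
        ≤ |F ω| * 1 := mul_le_mul_of_nonneg_left h1 (abs_nonneg _)
      _ ≤ _ := by rw [mul_one]; exact hFb ω
  have e1 : ∀ ω, Mh A (k + 1) ω ^ 2 = G ω + F ω * Xi A (k + 1) ω := by
    intro ω
    have h1 : Mh A (k + 1) ω = Mh A k ω + (Zh A k ω * Xi A (k + 1) ω - 1) / k := by
      unfold Mh
      rw [Zh_succ A k hk0, hk_succ k hk0]
      field_simp
      ring
    have h2 : Xi A (k + 1) ω ^ 2 = Xi A (k + 1) ω := by
      rcases Xi_01 A (k + 1) ω with h | h <;> rw [h] <;> norm_num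
    have h3 : (Mh A k ω + (Zh A k ω * Xi A (k + 1) ω - 1) / k) ^ 2 =
        Mh A k ω ^ 2 - (2 / k) * Mh A k ω + 1 / (k : ℝ) ^ 2 +
        ((2 / k) * (Mh A k ω * Zh A k ω) - (1 / (k : ℝ) ^ 2) * (2 * Zh A k ω)) *
          Xi A (k + 1) ω + (1 / (k : ℝ) ^ 2) * (Zh A k ω * Zh A k ω) * Xi A (k + 1) ω ^ 2 := by
      field_simp
      ring
    rw [h1, h3, h2, hG, hF]
    ring
  have e2 : ∀ ω, F ω * (Zh A k ω)⁻¹ = (2 / k) * Mh A k ω +
      (1 / (k : ℝ) ^ 2) * (Zh A k ω - 2) := by
    intro ω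
    have h1 := Zh_one_le A k ω
    rw [hF]
    field_simp
  have hMi := h.Mh_int k
  have hM2 : Integrable (fun ω => Mh A k ω ^ 2) P := by
    have h1 : StronglyMeasurable[ℱ k] (fun ω => Mh A k ω ^ 2) := hMm.pow 2
    apply bdd_int (h1.mono (ℱ.le _)) (B ^ 2)
    intro ω
    rw [abs_pow]
    exact pow_le_pow_left₀ (abs_nonneg _) (Mh_bd A k ω) 2
  have hZi := h.int_Zh k
  simp only [e1]
  rw [integral_add hGint hFX, h.pull k hk0 F hFm _ hFb]
  simp only [e2]
  have iZ2 : Integrable (fun ω => (1 / (k : ℝ) ^ 2) * (Zh A k ω - 2)) P :=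
    (hZi.sub (integrable_const 2)).const_mul _
  have iM : Integrable (fun ω => (2 / (k : ℝ)) * Mh A k ω) P := hMi.const_mul _
  have f1 : ∫ ω, G ω ∂P = ∫ ω, Mh A k ω ^ 2 ∂P - (2 / k) * ∫ ω, Mh A k ω ∂P +
      1 / (k : ℝ) ^ 2 := by
    rw [hG]
    have e : ∫ ω, (Mh A k ω ^ 2 - (2 / k) * Mh A k ω + 1 / (k : ℝ) ^ 2) ∂P =
        ∫ ω, (Mh A k ω ^ 2 - (2 / k) * Mh A k ω) ∂P + ∫ _ω : Ω, 1 / (k : ℝ) ^ 2 ∂P :=
      integral_add (hM2.sub iM) (integrable_const _)
    rw [e, integral_sub hM2 iM, integral_const_mul]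
    simp only [integral_const, probReal_univ, smul_eq_mul, one_mul]
  have f2 : ∫ ω, ((2 / k) * Mh A k ω + (1 / (k : ℝ) ^ 2) * (Zh A k ω - 2)) ∂P =
      (2 / k) * ∫ ω, Mh A k ω ∂P + (1 / (k : ℝ) ^ 2) * (1 + hk k - 2) := by
    rw [integral_add iM iZ2, integral_const_mul, integral_const_mul,
      integral_sub hZi (integrable_const 2), h.mean k]
    simp only [integral_const, probReal_univ, smul_eq_mul, one_mul]
  rw [f1, f2]
  ring

theorem Hawkins.bound (h : Hawkins P ℱ A) : ∃ C : ℝ, ∀ k, ∫ ω, Mh A k ω ^ 2 ∂P ≤ C := by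
  have hs : Summable (fun k : ℕ => 3 / (k : ℝ) ^ ((3 : ℝ) / 2)) := by
    have := (Real.summable_one_div_nat_rpow (p := 3 / 2)).2 (by norm_num)
    have h2 := this.mul_left 3
    refine h2.congr fun k => ?_
    ring
  refine ⟨1 + ∑' k : ℕ, 3 / (k : ℝ) ^ ((3 : ℝ) / 2), ?_⟩
  have key : ∀ k, ∫ ω, Mh A k ω ^ 2 ∂P ≤ 1 + ∑ j ∈ range k, 3 / (j : ℝ) ^ ((3 : ℝ) / 2) := by
    intro k
    induction k with
    | zero =>
      have : ∀ ω, Mh A 0 ω = 1 := by
        intro ω
        unfold Mh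
        rw [Zh_small A _ (by omega), hk_small _ (by omega), sub_zero]
      simp only [this]
      simp
    | succ k ih =>
      rcases Nat.eq_zero_or_pos k with hk0 | hk0
      · subst hk0
        have : ∀ ω, Mh A (0 + 1) ω = 1 := by
          intro ω
          unfold Mh
          rw [Zh_small A _ (by omega), hk_small _ (by omega), sub_zero]
        simp only [this]
        have h0 : (0 : ℝ) ≤ ∑ j ∈ range (0 + 1), 3 / (j : ℝ) ^ ((3 : ℝ) / 2) :=
          sum_nonneg fun j _ => by positivity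
        simp only [one_pow, integral_const, probReal_univ, smul_eq_mul, one_mul]
        linarith
      · rw [h.second k hk0, sum_range_succ]
        have hkr : (0 : ℝ) < k := by exact_mod_cast hk0
        have h1 : hk k / (k : ℝ) ^ 2 ≤ 3 / (k : ℝ) ^ ((3 : ℝ) / 2) := by
          rw [div_le_div_iff₀ (by positivity) (by positivity)]
          have h2 : (k : ℝ) ^ 2 = (k : ℝ) ^ ((3 : ℝ) / 2) * √(k : ℝ) := by
            rw [Real.sqrt_eq_rpow, ← Real.rpow_add hkr, ← Real.rpow_natCast]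
            norm_num
          rw [h2]
          have h3 := hk_le k
          have h4 : (0 : ℝ) < (k : ℝ) ^ ((3 : ℝ) / 2) := by positivity
          nlinarith
        linarith
  intro k
  have h1 : ∑ j ∈ range k, 3 / (j : ℝ) ^ ((3 : ℝ) / 2) ≤ ∑' k : ℕ, 3 / (k : ℝ) ^ ((3 : ℝ) / 2) :=
    hs.sum_le_tsum _ fun j _ => by positivity
  linarith [key k]

/-- the density of the Hawkins primes -/
theorem Hawkins.density (h : Hawkins P ℱ A) : ∀ᵐ ω ∂P,
    Tendsto (fun k : ℕ => Real.log ((k + 1 : ℕ) : ℝ) * (Zh A k ω)⁻¹) atTop (𝓝 1) := by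
  obtain ⟨C, hC⟩ := h.bound
  have hbdd : ∀ k, eLpNorm (Mh A k) 1 P ≤ ((Real.toNNReal (1 + C) : ℝ≥0) : ℝ≥0∞) := by
    intro k
    rw [eLpNorm_one_eq_lintegral_enorm, ← ofReal_integral_norm_eq_lintegral_enorm (h.Mh_int k)]
    apply ENNReal.ofReal_le_ofReal
    have hM2 : Integrable (fun ω => Mh A k ω ^ 2) P := by
      have h1 : StronglyMeasurable[ℱ k] (fun ω => Mh A k ω ^ 2) := (h.Mh_meas k).pow 2
      apply bdd_int (h1.mono (ℱ.le _)) ((k + 1 + hk k) ^ 2)
      intro ω
      rw [abs_pow]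
      exact pow_le_pow_left₀ (abs_nonneg _) (Mh_bd A k ω) 2
    calc ∫ ω, ‖Mh A k ω‖ ∂P ≤ ∫ ω, (1 + Mh A k ω ^ 2) ∂P := by
          apply integral_mono (h.Mh_int k).norm ((integrable_const 1).add hM2)
          intro ω
          change ‖Mh A k ω‖ ≤ 1 + Mh A k ω ^ 2
          rw [Real.norm_eq_abs]
          nlinarith [abs_nonneg (Mh A k ω), sq_abs (Mh A k ω), sq_nonneg (|Mh A k ω| - 1)]
      _ = 1 + ∫ ω, Mh A k ω ^ 2 ∂P := by
          rw [integral_add (integrable_const 1) hM2]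
          simp
      _ ≤ 1 + C := by linarith [hC k]
  filter_upwards [h.mart.submartingale.ae_tendsto_limitProcess hbdd] with ω hω
  have hlog : Tendsto (fun k : ℕ => Real.log ((k + 1 : ℕ) : ℝ)) atTop atTop :=
    (Real.tendsto_log_atTop.comp tendsto_natCast_atTop_atTop).comp (tendsto_add_atTop_nat 1)
  set m := ℱ.limitProcess (Mh A) P ω with hm
  have h1 : ∀ᶠ k : ℕ in atTop, |Zh A k ω / Real.log ((k + 1 : ℕ) : ℝ) - 1| ≤
      (|m| + 2) / Real.log ((k + 1 : ℕ) : ℝ) := by
    have e := Metric.tendsto_nhds.1 hω 1 one_pos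
    filter_upwards [e, hlog.eventually_gt_atTop 0, eventually_ge_atTop 1] with k k1 k2 k3
    have e1 : Zh A k ω / Real.log ((k + 1 : ℕ) : ℝ) - 1 =
        (Zh A k ω - Real.log ((k + 1 : ℕ) : ℝ)) / Real.log ((k + 1 : ℕ) : ℝ) := by
      field_simp
    rw [e1, abs_div, abs_of_pos k2]
    apply div_le_div_of_nonneg_right _ k2.le
    have e2 := hk_log k k3
    rw [Real.dist_eq] at k1
    have e3 : Zh A k ω = Mh A k ω + hk k := by unfold Mh; ring
    rw [e3]
    push_cast
    have e4 := neg_abs_le m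
    have e5 := le_abs_self m
    rw [abs_lt] at k1
    rw [abs_le] at e2 ⊢
    constructor <;> linarith
  have h2 : Tendsto (fun k : ℕ => Zh A k ω / Real.log ((k + 1 : ℕ) : ℝ)) atTop (𝓝 1) := by
    rw [tendsto_iff_norm_sub_tendsto_zero]
    have h3 : Tendsto (fun k : ℕ => (|m| + 2) / Real.log ((k + 1 : ℕ) : ℝ)) atTop (𝓝 0) :=
      tendsto_const_nhds.div_atTop hlog
    apply squeeze_zero' (Eventually.of_forall fun k => norm_nonneg _) _ h3
    filter_upwards [h1] with k hk
    rw [Real.norm_eq_abs]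
    exact hk
  have h3 := h2.inv₀ one_ne_zero
  rw [inv_one] at h3
  refine h3.congr fun k => ?_
  rw [inv_div, div_eq_mul_inv]

theorem rvl_log : RVL Real.log 1 where
  β_nonneg := zero_le_one
  L_low := Real.tendsto_log_atTop.eventually_ge_atTop 1
  L_up := ⟨1, Eventually.of_forall fun x => by rw [one_mul]⟩
  rv := by
    intro ε hε
    filter_upwards with x y _ _
    rw [Real.rpow_one, sub_self, abs_zero]
    exact hε.le

/-- SUN'S LAW for the Hawkins primes. -/
theorem hawkins_law (h : Hawkins P ℱ A) : ∀ᵐ ω ∂P, SunLaw (fun m => ω ∈ A m) := by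
  have h1 : ∀ᵐ ω ∂P, (0 : ℝ) < 1 ∧ Tendsto (fun k : ℕ => Real.log ((k + 1 : ℕ) : ℝ) *
      (P[(A (k + 1)).indicator (fun _ => (1 : ℝ)) | ℱ k]) ω) atTop (𝓝 1) := by
    have h2 : ∀ᵐ ω ∂P, ∀ k : ℕ, 1 ≤ k → (P[Xi A (k + 1) | ℱ k]) ω = (Zh A k ω)⁻¹ := by
      rw [ae_all_iff]
      intro k
      rcases Nat.eq_zero_or_pos k with hk0 | hk0
      · exact Eventually.of_forall fun ω hk => by omega
      · filter_upwards [h.ce k hk0] with ω hω _
        exact hω
    filter_upwards [h.density, h2] with ω k1 k2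
    refine ⟨one_pos, k1.congr' ?_⟩
    filter_upwards [eventually_ge_atTop 1] with k hk
    rw [← k2 k hk]
    rfl
  filter_upwards [random_law rvl_log h.meas (fun _ => 1) h1] with ω hω
  unfold SunLaw
  have e0 : (fun m => 0 < m ∧ ω ∈ A m) = fun m => ω ∈ A m := by
    funext m
    rcases Nat.eq_zero_or_pos m with hm | hm
    · subst hm
      rw [h.zero]
      simp
    · simp [hm]
  rw [e0] at hω
  have e1 : (2 : ℝ) ^ (-(1 : ℝ)) = 1 / 2 := by
    rw [Real.rpow_neg (by norm_num), Real.rpow_one]; norm_num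
  rw [e1] at hω
  have h3 := hω.const_mul 2
  rw [show (2 : ℝ) * (1 / 2) = 1 by norm_num] at h3
  refine h3.congr fun n => ?_
  ring

end

end Pool.Agent.Lib.MP_3ef1ab_nt
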